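import Mathlib
import Pool.Agent.H92.TD.Defs

/-!
MP_5aa732_co, project BF92: bull-free odd-hole-free graphs are 2-divisible (colour by the parity of the distance to a
vertex `v` with a largest stable set `Z` of neighbours).
-/

set_option autoImplicit false
set_option linter.unusedSectionVars false
set_option linter.unusedVariables false

namespace Pool.Agent.H92.BF

open SimpleGraph Finset Pool.Agent.H92.TD

/-- No induced bull: induced path `p - a - b - q` and `t` adjacent to `a` and `b`, not to `p`, `q`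
(distinctness follows from the adjacency pattern). -/
def Bullfree {V : Type} (G : SimpleGraph V) : Prop :=
  ∀ p a b q t : V, G.Adj p a → G.Adj a b → G.Adj b q → G.Adj t a → G.Adj t b →
    ¬ G.Adj p b → ¬ G.Adj p q → ¬ G.Adj a q → ¬ G.Adj p t → ¬ G.Adj q t → False

/-- `p 0, …, p n` is an induced path. -/
def IP {V : Type} (G : SimpleGraph V) (n : ℕ) (p : ℕ → V) : Prop :=
  (∀ i j, i < j → j ≤ n → p i ≠ p j) ∧ (∀ i j, i < j → j ≤ n → (G.Adj (p i) (p j) ↔ j = i + 1))

/-- `d` behaves like the distance to `v`; `Z` is a stable set of neighbours of `v` and every vertex of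
layer two has a neighbour in `Z`. -/
structure Lay {V : Type} (G : SimpleGraph V) (v : V) (d : V → ℕ) (Z : Finset V) : Prop where
  d0 : ∀ y, d y = 0 ↔ y = v
  d1 : ∀ x y, G.Adj x y → d x ≤ d y + 1
  d2 : ∀ y, d y ≠ 0 → ∃ x, G.Adj y x ∧ d x + 1 = d y
  Z1 : ∀ z ∈ Z, G.Adj v z
  Zs : ∀ z ∈ Z, ∀ z' ∈ Z, ¬ G.Adj z z'
  Z2 : ∀ y, d y = 2 → ∃ z ∈ Z, G.Adj z y

/-- every clique of layer `i + 1` has a common neighbour in layer `i` -/
def CompK {V : Type} (G : SimpleGraph V) (d : V → ℕ) (i : ℕ) : Prop :=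
  ∀ K : Finset V, K.Nonempty → G.IsClique (K : Set V) → (∀ k ∈ K, d k = i + 1) →
    ∃ x, d x = i ∧ ∀ k ∈ K, G.Adj x k

/-- adjacent vertices of layer `i` have the same neighbours in layer `i + 1` -/
def Same {V : Type} (G : SimpleGraph V) (d : V → ℕ) (i : ℕ) : Prop :=
  ∀ y y' k, d y = i → d y' = i → d k = i + 1 → G.Adj y y' → G.Adj y k → G.Adj y' k

/-- nonadjacent vertices of layer `i` are joined by an induced path of even length with interior in lower layers -/
def EP {V : Type} (G : SimpleGraph V) (d : V → ℕ) (i : ℕ) : Prop :=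
  ∀ y y', d y = i → d y' = i → y ≠ y' → ¬ G.Adj y y' →
    ∃ (n : ℕ) (p : ℕ → V), Even n ∧ 2 ≤ n ∧ IP G n p ∧ p 0 = y ∧ p n = y' ∧
      ∀ j, 0 < j → j < n → d (p j) < i

end Pool.Agent.H92.BF
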