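import Mathlib
import Pool.Agent.H92.TD.Defs
import Pool.Agent.H92.BF.BDefs

/-!
Row BF_Hole.  An induced path p 0, …, p n of even length n ≥ 2 together with k, k' (p 0 ~ k ~ k' ~ p n and no other adjacencies) is an odd hole of length n + 3.
-/

set_option autoImplicit false
set_option linter.unusedSectionVars false
set_option linter.unusedVariables false

namespace Pool.Agent.H92.BF

open SimpleGraph Finset Pool.Agent.H92.TD

private theorem hole_sub_val {N : ℕ} (a b : Fin N) :
    (a - b).val = if b.val ≤ a.val then a.val - b.val else N - b.val + a.val := by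
  have ha := a.isLt
  have hb := b.isLt
  rw [Fin.val_sub]
  split_ifs with h
  · have e : N - b.val + a.val = (a.val - b.val) + N := by omega
    rw [e, Nat.add_mod_right, Nat.mod_eq_of_lt (by omega)]
  · rw [Nat.mod_eq_of_lt (by omega)]

private theorem hole_emb {V : Type} {G : SimpleGraph V} {f : ℕ → V} {k : ℕ} (hk : 2 ≤ k)
    (hf : ∀ i, i < 2 * k + 1 → G.Adj (f i) (f (i + 1))) (hfn : f (2 * k + 1) = f 0)
    (hinj : ∀ i j, i < j → j < 2 * k + 1 → f i ≠ f j)
    (hadj : ∀ i j, i < j → j < 2 * k + 1 → G.Adj (f i) (f j) → j = i + 1 ∨ (i = 0 ∧ j = 2 * k)) :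
    Nonempty (SimpleGraph.cycleGraph (2 * k + 1) ↪g G) := by
  have hinj' : Function.Injective (fun i : Fin (2 * k + 1) => f i.val) := by
    intro a b hab
    rcases Nat.lt_trichotomy a.val b.val with h | h | h
    · exact absurd hab (hinj _ _ h b.isLt)
    · exact Fin.ext h
    · exact absurd hab.symm (hinj _ _ h a.isLt)
  have hlast : G.Adj (f (2 * k)) (f 0) := by
    have h := hf (2 * k) (by omega)
    rwa [hfn] at h
  refine ⟨⟨⟨fun i => f i.val, hinj'⟩, ?_⟩⟩
  intro a b
  change G.Adj (f a.val) (f b.val) ↔ _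
  have ha := a.isLt
  have hb := b.isLt
  rw [SimpleGraph.cycleGraph_adj', hole_sub_val, hole_sub_val]
  constructor
  · intro h
    rcases Nat.lt_trichotomy a.val b.val with h1 | h1 | h1
    · rcases hadj _ _ h1 hb h with h2 | ⟨h2, h3⟩
      · right
        rw [if_pos h1.le]
        omega
      · left
        rw [if_neg (by omega)]
        omega
    · rw [h1] at h
      exact absurd h (G.loopless.irrefl _)
    · rcases hadj _ _ h1 ha h.symm with h2 | ⟨h2, h3⟩
      · left
        rw [if_pos h1.le]
        omega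
      · right
        rw [if_neg (by omega)]
        omega
  · intro h
    have key : ∀ x y : ℕ, x < 2 * k + 1 → y < 2 * k + 1 →
        (if y ≤ x then x - y else 2 * k + 1 - y + x) = 1 → G.Adj (f x) (f y) := by
      intro x y hx hy h1
      split_ifs at h1 with h2
      · have e : x = y + 1 := by omega
        rw [e]
        exact (hf y hy).symm
      · have e1 : y = 2 * k := by omega
        have e2 : x = 0 := by omega
        rw [e1, e2]
        exact hlast.symm
    rcases h with h | h
    · exact key _ _ ha hb h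
    · exact (key _ _ hb ha h).symm

theorem bf_hole {V : Type} {G : SimpleGraph V} (ho : OddHoleFree G) {n : ℕ} {p : ℕ → V}
    (hn : Even n) (h2 : 2 ≤ n) (hp : IP G n p) {k k' : V} (hk0 : G.Adj (p 0) k)
    (hkn : G.Adj (p n) k') (hkk : G.Adj k k') (hk : ∀ i, i ≤ n → i ≠ 0 → ¬ G.Adj (p i) k)
    (hk' : ∀ i, i < n → ¬ G.Adj (p i) k') (hne : ∀ i, i ≤ n → p i ≠ k)
    (hne' : ∀ i, i ≤ n → p i ≠ k') : False := by
  obtain ⟨m, hm⟩ := hn
  obtain ⟨f, hf⟩ : ∃ f : ℕ → V, f = fun i => if i ≤ n then p i else if i = n + 1 then k' else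
    if i = n + 2 then k else p 0 := ⟨_, rfl⟩
  have f1 : ∀ i, i ≤ n → f i = p i := by
    intro i hi
    rw [hf]
    simp only [if_pos hi]
  have f2 : f (n + 1) = k' := by
    rw [hf]
    have e : ¬ (n + 1 ≤ n) := by omega
    simp only [if_neg e, if_true]
  have f3 : f (n + 2) = k := by
    rw [hf]
    have e : ¬ (n + 2 ≤ n) := by omega
    have e' : ¬ (n + 2 = n + 1) := by omega
    simp only [if_neg e, if_neg e', if_true]
  have f4 : f (n + 3) = p 0 := by
    rw [hf]
    have e : ¬ (n + 3 ≤ n) := by omega
    have e' : ¬ (n + 3 = n + 1) := by omega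
    have e'' : ¬ (n + 3 = n + 2) := by omega
    simp only [if_neg e, if_neg e', if_neg e'']
  have hN : 2 * (m + 1) + 1 = n + 3 := by omega
  refine (hole_emb (G := G) (f := f) (k := m + 1) (by omega) ?_ ?_ ?_ ?_).elim
    fun φ => (ho (m + 1) (by omega)).false φ
  · intro i hi
    have hc : i < n ∨ i = n ∨ i = n + 1 ∨ i = n + 2 := by omega
    rcases hc with h | rfl | rfl | rfl
    · rw [f1 i h.le, f1 (i + 1) h]
      exact (hp.2 i (i + 1) (by omega) h).2 rfl
    · rw [f1 i le_rfl, f2]
      exact hkn
    · rw [f2, f3]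
      exact hkk.symm
    · rw [f3, f4]
      exact hk0.symm
  · rw [hN, f4, f1 0 (by omega)]
  · intro i j hij hj
    have hc : j ≤ n ∨ j = n + 1 ∨ j = n + 2 := by omega
    rcases hc with h | rfl | rfl
    · rw [f1 i (by omega), f1 j h]
      exact hp.1 i j hij h
    · rw [f1 i (by omega), f2]
      exact hne' i (by omega)
    · rw [f3]
      have hc' : i ≤ n ∨ i = n + 1 := by omega
      rcases hc' with h' | rfl
      · rw [f1 i h']
        exact hne i h'
      · rw [f2]
        exact hkk.ne'
  · intro i j hij hj ha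
    have hc : j ≤ n ∨ j = n + 1 ∨ j = n + 2 := by omega
    rcases hc with h | rfl | rfl
    · rw [f1 i (by omega), f1 j h] at ha
      exact Or.inl ((hp.2 i j hij h).1 ha)
    · rw [f1 i (by omega), f2] at ha
      left
      by_contra hcon
      exact hk' i (by omega) ha
    · rw [f3] at ha
      have hc' : i ≤ n ∨ i = n + 1 := by omega
      rcases hc' with h' | rfl
      · rw [f1 i h'] at ha
        right
        refine ⟨?_, by omega⟩
        by_contra hcon
        exact hk i h' hcon ha
      · exact Or.inl rfl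

end Pool.Agent.H92.BF
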