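import Mathlib
import Pool.Agent.H92.TD.Defs
import Pool.Agent.H92.BF.BDefs

/-!
Row BF_Lay1.  Nonadjacency between layers i and j with |i - j| ≥ 2 comes from `h.d1` (both directions) + omega.
`bf_comp1` (cliques K of layer 2 have a common neighbour in layer 1, even in Z).  Choose z ∈ Z with |K.filter (z ~ ·)| maximal (`Finset.exists_max_image`; Z nonempty by `h.Z2` for a member of K).
 Suppose k ∈ K, z ≁ k.  By `h.Z2` (d k = 2) z' ∈ Z, z' ~ k.  If every k1 ∈ K with z ~ k1 had z' ~ k1 then K.filter (z ~ ·) ⊂ K.filter (z' ~ ·) strictly (k): contradiction.  So k1 ∈ K, z ~ k1, z' ≁ k1.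
 k1 ≠ k, k1 ~ k.  C_5:  v, z, k1, k, z'  (v ~ z, z ~ k1, k1 ~ k, k ~ z', z' ~ v; v ≁ k1, z ≁ k, k1 ≁ z', k ≁ v (layers 0 and 2), z' ≁ z (`h.Zs`)).  d z = 1: z ~ v gives d z ≤ d v + 1 = 1 and z ≠ v.
`bf_same` : y ~ y' in layer i + 1, k in layer i + 2, y ~ k.  Suppose y' ≁ k.  CompK i for the clique {y, y'} : x in layer i complete to {y, y'}.  i ≥ 1, so `h.d2 x` gives u with x ~ u, d u = i - 1.
 Bull with p := u, a := x, b := y, q := k, t := y'  (u ~ x, x ~ y, y ~ k, y' ~ x, y' ~ y; u ≁ y, u ≁ k, x ≁ k, u ≁ y' by layers; k ≁ y').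
`bf_ep2` : y, y' in layer 2, distinct, nonadjacent.  z ∈ Z with z ~ y, z' ∈ Z with z' ~ y' (`h.Z2`).  If z ~ y':  path y, z, y'  (n = 2).  If z' ~ y:  path y, z', y'.  Otherwise z ≠ z', z ≁ z', path
 y, z, v, z', y'  (n = 4), e.g. p := fun i => ![y, z, v, z', y'] if i < 5 … or `fun i => if i = 0 then y else if i = 1 then z else …`.  Interior vertices: d z = 1, d v = 0, d z' = 1, all < 2.
-/

set_option autoImplicit false
set_option linter.unusedSectionVars false
set_option linter.unusedVariables false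

namespace Pool.Agent.H92.BF

open SimpleGraph Finset Pool.Agent.H92.TD

private theorem lay1_nadj {V : Type} {G : SimpleGraph V} {v : V} {d : V → ℕ} {Z : Finset V}
    (h : Lay G v d Z) {x y : V} (hd : d x + 1 < d y) : ¬ G.Adj x y := by
  intro ha
  have := h.d1 y x ha.symm
  omega

private theorem lay1_dz {V : Type} {G : SimpleGraph V} {v : V} {d : V → ℕ} {Z : Finset V}
    (h : Lay G v d Z) {z : V} (hz : z ∈ Z) : d z = 1 := by
  have h1 := h.Z1 z hz
  have h2 := h.d1 z v h1.symm
  have h3 : d v = 0 := (h.d0 v).2 rfl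
  have h4 : d z ≠ 0 := by
    intro e
    have h5 := (h.d0 z).1 e
    rw [h5] at h1
    exact G.loopless.irrefl _ h1
  omega

private theorem lay1_ip3 {V : Type} {G : SimpleGraph V} {a b c : V} (hab : G.Adj a b)
    (hbc : G.Adj b c) (hac : ¬ G.Adj a c) (hne : a ≠ c) :
    IP G 2 (fun i => if i = 0 then a else if i = 1 then b else c) := by
  constructor
  · intro i j hij hj
    interval_cases j <;> interval_cases i
    · simpa using hab.ne
    · simpa using hne
    · simpa using hbc.ne
  · intro i j hij hj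
    interval_cases j <;> interval_cases i
    · simpa using hab
    · simpa using hac
    · simpa using hbc

private theorem lay1_ip5 {V : Type} {G : SimpleGraph V} {a b c d e : V} (hab : G.Adj a b)
    (hbc : G.Adj b c) (hcd : G.Adj c d) (hde : G.Adj d e) (hac : ¬ G.Adj a c) (had : ¬ G.Adj a d)
    (hae : ¬ G.Adj a e) (hbd : ¬ G.Adj b d) (hbe : ¬ G.Adj b e) (hce : ¬ G.Adj c e)
    (nac : a ≠ c) (nad : a ≠ d) (nae : a ≠ e) (nbd : b ≠ d) (nbe : b ≠ e) (nce : c ≠ e) :
    IP G 4 (fun i => if i = 0 then a else if i = 1 then b else if i = 2 then c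
      else if i = 3 then d else e) := by
  constructor
  · intro i j hij hj
    interval_cases j <;> interval_cases i <;>
      simp [hab.ne, hbc.ne, hcd.ne, hde.ne, nac, nad, nae, nbd, nbe, nce]
  · intro i j hij hj
    interval_cases j <;> interval_cases i <;>
      simp [hab, hbc, hcd, hde, hac, had, hae, hbd, hbe, hce]

theorem bf_comp1 {V : Type} {G : SimpleGraph V} {v : V} {d : V → ℕ} {Z : Finset V}
    (h : Lay G v d Z) (h5 : C5free G) : CompK G d 1 := by
  classical
  intro K hKne hK hKd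
  have hv : d v = 0 := (h.d0 v).2 rfl
  obtain ⟨k0, hk0⟩ := hKne
  obtain ⟨z0, hz0, _⟩ := h.Z2 k0 (hKd k0 hk0)
  obtain ⟨z, hz, hmax⟩ := Finset.exists_max_image Z
    (fun z => (K.filter (fun k => G.Adj z k)).card) ⟨z0, hz0⟩
  refine ⟨z, lay1_dz h hz, ?_⟩
  intro k hk
  by_contra hzk
  obtain ⟨z', hz', hz'k⟩ := h.Z2 k (hKd k hk)
  have hex : ∃ k1 ∈ K, G.Adj z k1 ∧ ¬ G.Adj z' k1 := by
    by_contra hc
    push Not at hc
    have hlt : (K.filter (fun k => G.Adj z k)).card < (K.filter (fun k => G.Adj z' k)).card := by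
      apply Finset.card_lt_card
      rw [Finset.ssubset_iff_of_subset]
      · exact ⟨k, Finset.mem_filter.2 ⟨hk, hz'k⟩, fun hm => hzk (Finset.mem_filter.1 hm).2⟩
      · intro x hx
        rw [Finset.mem_filter] at hx ⊢
        exact ⟨hx.1, hc x hx.1 hx.2⟩
    exact absurd (hmax z' hz') (not_le.2 hlt)
  obtain ⟨k1, hk1, hzk1, hz'k1⟩ := hex
  have hne : k1 ≠ k := by
    intro e
    rw [e] at hzk1
    exact hzk hzk1
  have hkk : G.Adj k1 k := hK hk1 hk hne
  have e1 := hKd k1 hk1
  have e2 := hKd k hk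
  refine h5 v z k1 k z' (h.Z1 z hz) hzk1 hkk hz'k.symm (h.Z1 z' hz').symm
    (lay1_nadj h (by omega)) hzk (fun ha => hz'k1 ha.symm) ?_ (h.Zs z' hz' z hz)
  intro ha
  exact lay1_nadj h (x := v) (y := k) (by omega) ha.symm

theorem bf_same {V : Type} {G : SimpleGraph V} {v : V} {d : V → ℕ} {Z : Finset V}
    (h : Lay G v d Z) (hb : Bullfree G) {i : ℕ} (hi : 1 ≤ i) (hc : CompK G d i) :
    Same G d (i + 1) := by
  classical
  intro y y' k hy hy' hk hyy hyk
  by_contra hy'k
  obtain ⟨x, hx, hxa⟩ := hc {y, y'} ⟨y, by simp⟩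
    (by
      intro a ha b hb' hab
      simp only [Finset.coe_insert, Finset.coe_singleton, Set.mem_insert_iff,
        Set.mem_singleton_iff] at ha hb'
      rcases ha with rfl | rfl <;> rcases hb' with rfl | rfl
      · exact absurd rfl hab
      · exact hyy
      · exact hyy.symm
      · exact absurd rfl hab)
    (by
      intro a ha
      simp only [Finset.mem_insert, Finset.mem_singleton] at ha
      rcases ha with rfl | rfl
      · exact hy
      · exact hy')
  have hxy := hxa y (by simp)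
  have hxy' := hxa y' (by simp)
  obtain ⟨u, hxu, hu⟩ := h.d2 x (by omega)
  exact hb u x y k y' hxu.symm hxy hyk hxy'.symm hyy.symm
    (lay1_nadj h (by omega)) (lay1_nadj h (by omega)) (lay1_nadj h (by omega))
    (lay1_nadj h (by omega)) (fun ha => hy'k ha.symm)

theorem bf_ep2 {V : Type} {G : SimpleGraph V} {v : V} {d : V → ℕ} {Z : Finset V}
    (h : Lay G v d Z) : EP G d 2 := by
  intro y y' hy hy' hne hna
  have hv : d v = 0 := (h.d0 v).2 rfl
  obtain ⟨z, hz, hzy⟩ := h.Z2 y hy
  obtain ⟨z', hz', hz'y'⟩ := h.Z2 y' hy'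
  have dz := lay1_dz h hz
  have dz' := lay1_dz h hz'
  by_cases h1 : G.Adj z y'
  · refine ⟨2, fun i => if i = 0 then y else if i = 1 then z else y', by decide, le_rfl,
      lay1_ip3 hzy.symm h1 hna hne, by simp, by simp, ?_⟩
    intro j hj0 hj2
    obtain rfl : j = 1 := by omega
    simp [dz]
  by_cases h2 : G.Adj z' y
  · refine ⟨2, fun i => if i = 0 then y else if i = 1 then z' else y', by decide, le_rfl,
      lay1_ip3 h2.symm hz'y' hna hne, by simp, by simp, ?_⟩
    intro j hj0 hj2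
    obtain rfl : j = 1 := by omega
    simp [dz']
  have hzz : z ≠ z' := by
    intro e
    rw [e] at h1
    exact h1 hz'y'
  have hne' : ∀ {a b : V}, d a ≠ d b → a ≠ b := fun hab e => hab (by rw [e])
  refine ⟨4, fun i => if i = 0 then y else if i = 1 then z else if i = 2 then v
      else if i = 3 then z' else y', by decide, by norm_num,
    lay1_ip5 hzy.symm (h.Z1 z hz).symm (h.Z1 z' hz') hz'y' ?_ ?_ hna (h.Zs z hz z' hz') h1 ?_
      (hne' (by omega)) (hne' (by omega)) hne hzz (hne' (by omega)) (hne' (by omega)),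
    by simp, by simp, ?_⟩
  · intro ha
    exact lay1_nadj h (x := v) (y := y) (by omega) ha.symm
  · intro ha
    exact h2 ha.symm
  · exact lay1_nadj h (by omega)
  · intro j hj0 hj2
    interval_cases j
    · simp [dz]
    · simp [hv]
    · simp [dz']

end Pool.Agent.H92.BF
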