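import Mathlib
import Pool.Agent.H92.TD.Defs
import Pool.Agent.H92.BF.BDefs
import Pool.Agent.H92.BF.Hole

/-!
Row BF_Lay2.  Nonadjacency between layers i and j with |i - j| ≥ 2 comes from `h.d1` (both directions) + omega.
`bf_comp` : CompK i from Same i and EP i.  K a nonempty clique of layer i + 1.  Choose y among {y | d y = i} (nonempty by `h.d2`) with |K.filter (y ~ ·)| maximal (`Finset.exists_max_image` on univ.filter).
 Suppose k ∈ K, y ≁ k.  `h.d2 k`: y' with k ~ y', d y' = i.  K.filter (y ~ ·) is not contained in K.filter (y' ~ ·) (otherwise strictly, by k), so k1 ∈ K with y ~ k1, y' ≁ k1; k1 ~ k (clique, k1 ≠ k since y ≁ k).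
 y ≠ y'.  If y ~ y': Same i gives y' ~ k1, contradiction.  If y ≁ y': EP i gives an induced path p of even length n from y to y', and `bf_hole` with k := k1, k' := k:  p 0 = y ~ k1, p n = y' ~ k, k1 ~ k; the interior
 vertices have layer < i and are nonadjacent to and different from k1, k (layer i + 1); y ≁ k, y' ≁ k1; y, y' ≠ k1, k (layers).
`bf_ep` : EP (i+1) from Same i and EP i.  y, y' distinct nonadjacent in layer i + 1.  `h.d2`: x ~ y, x' ~ y' in layer i.  If x ~ y':  n = 2, path y, x, y'.  If x' ~ y:  path y, x', y'.  Otherwise x ≠ x';  x ≁ x' (else Same i: x ~ y gives x' ~ y).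
 EP i: p, n from x to x'.  New path: q 0 := y, q (j+1) := p j (j ≤ n), q (n+2) := y'  (q := fun j => if j = 0 then y else if j = n + 2 then y' else p (j - 1)).  y ≁ p j for 0 < j < n (layers < i against i + 1),
 y ≁ p n = x'; y' ≁ p j for j < n in the same way; y ≁ y'.  Even (n + 2).
-/

set_option autoImplicit false
set_option linter.unusedSectionVars false
set_option linter.unusedVariables false

namespace Pool.Agent.H92.BF

open SimpleGraph Finset Pool.Agent.H92.TD

theorem bf_comp {V : Type} [Fintype V] {G : SimpleGraph V} {v : V} {d : V → ℕ} {Z : Finset V}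
    (h : Lay G v d Z) (ho : OddHoleFree G) {i : ℕ} (hs : Same G d i) (he : EP G d i) :
    CompK G d i := by
  classical
  intro K hKn hK hKd
  set S : Finset V := Finset.univ.filter (fun y => d y = i) with hS
  have hSn : S.Nonempty := by
    obtain ⟨k, hk⟩ := hKn
    obtain ⟨x, hx, hxd⟩ := h.d2 k (by rw [hKd k hk]; omega)
    exact ⟨x, by rw [hS, mem_filter]; exact ⟨mem_univ _, by rw [hKd k hk] at hxd; omega⟩⟩
  obtain ⟨y, hyS, hmax⟩ :=
    S.exists_max_image (fun y => (K.filter (fun k => G.Adj y k)).card) hSn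
  have hyd : d y = i := (mem_filter.1 hyS).2
  refine ⟨y, hyd, ?_⟩
  intro k hk
  by_contra hyk
  obtain ⟨y', hky', hy'd⟩ := h.d2 k (by rw [hKd k hk]; omega)
  have hy'd' : d y' = i := by rw [hKd k hk] at hy'd; omega
  have hle := hmax y' (by rw [hS, mem_filter]; exact ⟨mem_univ _, hy'd'⟩)
  have hnot : ∃ k1 ∈ K, G.Adj y k1 ∧ ¬ G.Adj y' k1 := by
    by_contra hcon
    have hcon' : ∀ k1 ∈ K, G.Adj y k1 → G.Adj y' k1 := by
      intro k1 h1 h2
      by_contra h3
      exact hcon ⟨k1, h1, h2, h3⟩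
    have hss : K.filter (fun k => G.Adj y k) ⊂ K.filter (fun k => G.Adj y' k) := by
      rw [Finset.ssubset_iff_of_subset]
      · exact ⟨k, mem_filter.2 ⟨hk, hky'.symm⟩, fun hh => hyk (mem_filter.1 hh).2⟩
      · intro x hx
        exact mem_filter.2 ⟨(mem_filter.1 hx).1, hcon' x (mem_filter.1 hx).1 (mem_filter.1 hx).2⟩
    exact absurd (card_lt_card hss) (not_lt.2 hle)
  obtain ⟨k1, hk1, hyk1, hy'k1⟩ := hnot
  have hne : k1 ≠ k := fun e => hyk (e ▸ hyk1)
  have hadj : G.Adj k1 k := hK (by exact_mod_cast hk1) (by exact_mod_cast hk) hne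
  have hyy : y ≠ y' := fun e => hy'k1 (e ▸ hyk1)
  by_cases hyy' : G.Adj y y'
  · exact hy'k1 (hs y y' k1 hyd hy'd' (hKd k1 hk1) hyy' hyk1)
  · obtain ⟨n, p, hn, h2, hp, hp0, hpn, hint⟩ := he y y' hyd hy'd' hyy hyy'
    have hle' : ∀ j, j ≤ n → d (p j) ≤ i := by
      intro j hj
      rcases Nat.eq_zero_or_pos j with h1 | h1
      · rw [h1, hp0, hyd]
      · rcases Nat.lt_or_eq_of_le hj with h3 | h3
        · exact (hint j h1 h3).le
        · rw [h3, hpn, hy'd']
    refine bf_hole ho hn h2 hp (k := k1) (k' := k) (by rw [hp0]; exact hyk1)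
      (by rw [hpn]; exact hky'.symm) hadj ?_ ?_ ?_ ?_
    · intro j hj hj0 ha
      rcases Nat.lt_or_eq_of_le hj with h1 | h1
      · have h4 := hint j (by omega) h1
        have h3 := h.d1 _ _ ha.symm
        rw [hKd k1 hk1] at h3
        omega
      · rw [h1, hpn] at ha
        exact hy'k1 ha
    · intro j hj ha
      rcases Nat.eq_zero_or_pos j with h1 | h1
      · rw [h1, hp0] at ha
        exact hyk ha
      · have h4 := hint j h1 hj
        have h3 := h.d1 _ _ ha.symm
        rw [hKd k hk] at h3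
        omega
    · intro j hj e
      have h3 := hle' j hj
      rw [e, hKd k1 hk1] at h3
      omega
    · intro j hj e
      have h3 := hle' j hj
      rw [e, hKd k hk] at h3
      omega

theorem bf_ep {V : Type} {G : SimpleGraph V} {v : V} {d : V → ℕ} {Z : Finset V}
    (h : Lay G v d Z) {i : ℕ} (hs : Same G d i) (he : EP G d i) : EP G d (i + 1) := by
  intro y y' hy hy' hne hna
  obtain ⟨x, hyx, hxd⟩ := h.d2 y (by omega)
  obtain ⟨x', hyx', hxd'⟩ := h.d2 y' (by omega)
  have hx : d x = i := by omega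
  have hx' : d x' = i := by omega
  have short : ∀ w, d w = i → G.Adj y w → G.Adj w y' → ∃ (n : ℕ) (p : ℕ → V), Even n ∧ 2 ≤ n ∧
      IP G n p ∧ p 0 = y ∧ p n = y' ∧ ∀ j, 0 < j → j < n → d (p j) < i + 1 := by
    intro w hw h1 h2
    obtain ⟨q, hq⟩ : ∃ q : ℕ → V, q = fun j => if j = 0 then y else if j = 1 then w else y' :=
      ⟨_, rfl⟩
    have q0 : q 0 = y := by rw [hq]; simp
    have q1 : q 1 = w := by rw [hq]; simp
    have q2 : q 2 = y' := by rw [hq]; simp
    refine ⟨2, q, ⟨1, rfl⟩, le_rfl, ⟨?_, ?_⟩, q0, q2, ?_⟩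
    · intro a b hab hb
      have hc : (a = 0 ∧ b = 1) ∨ (a = 0 ∧ b = 2) ∨ (a = 1 ∧ b = 2) := by omega
      rcases hc with ⟨rfl, rfl⟩ | ⟨rfl, rfl⟩ | ⟨rfl, rfl⟩
      · rw [q0, q1]
        exact h1.ne
      · rw [q0, q2]
        exact hne
      · rw [q1, q2]
        exact h2.ne
    · intro a b hab hb
      have hc : (a = 0 ∧ b = 1) ∨ (a = 0 ∧ b = 2) ∨ (a = 1 ∧ b = 2) := by omega
      rcases hc with ⟨rfl, rfl⟩ | ⟨rfl, rfl⟩ | ⟨rfl, rfl⟩
      · rw [q0, q1]
        exact ⟨fun _ => rfl, fun _ => h1⟩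
      · rw [q0, q2]
        exact ⟨fun hh => absurd hh hna, fun hh => by omega⟩
      · rw [q1, q2]
        exact ⟨fun _ => rfl, fun _ => h2⟩
    · intro j h3 h4
      have e : j = 1 := by omega
      rw [e, q1, hw]
      omega
  by_cases hxy' : G.Adj x y'
  · exact short x hx hyx hxy'
  by_cases hx'y : G.Adj x' y
  · exact short x' hx' hx'y.symm hyx'.symm
  have hxx : x ≠ x' := fun e => hxy' (e ▸ hyx'.symm)
  have hxx' : ¬ G.Adj x x' := fun ha => hx'y (hs x x' y hx hx' hy ha hyx.symm)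
  obtain ⟨n, p, hn, h2, hp, hp0, hpn, hint⟩ := he x x' hx hx' hxx hxx'
  have hle' : ∀ j, j ≤ n → d (p j) ≤ i := by
    intro j hj
    rcases Nat.eq_zero_or_pos j with h1 | h1
    · rw [h1, hp0, hx]
    · rcases Nat.lt_or_eq_of_le hj with h3 | h3
      · exact (hint j h1 h3).le
      · rw [h3, hpn, hx']
  obtain ⟨q, hq⟩ : ∃ q : ℕ → V, q = fun j => if j = 0 then y else if j = n + 2 then y' else
    p (j - 1) := ⟨_, rfl⟩
  have q0 : q 0 = y := by rw [hq]; simp
  have qn : q (n + 2) = y' := by rw [hq]; simp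
  have qj : ∀ j, j ≤ n → q (j + 1) = p j := by
    intro j hj
    rw [hq]
    have e1 : ¬ (j + 1 = 0) := by omega
    have e2 : ¬ (j + 1 = n + 2) := by omega
    simp only [if_neg e1, if_neg e2, Nat.add_sub_cancel]
  have hyp : ∀ j, 0 < j → j ≤ n → ¬ G.Adj y (p j) := by
    intro j h1 h3 ha
    rcases Nat.lt_or_eq_of_le h3 with h4 | h4
    · have h5 := hint j h1 h4
      have h6 := h.d1 _ _ ha
      omega
    · rw [h4, hpn] at ha
      exact hx'y ha.symm
  have hyp' : ∀ j, j < n → ¬ G.Adj (p j) y' := by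
    intro j h3 ha
    rcases Nat.eq_zero_or_pos j with h1 | h1
    · rw [h1, hp0] at ha
      exact hxy' ha
    · have h5 := hint j h1 h3
      have h6 := h.d1 _ _ ha.symm
      omega
  refine ⟨n + 2, q, hn.add ⟨1, rfl⟩, by omega, ⟨?_, ?_⟩, q0, qn, ?_⟩
  · intro a b hab hb
    rcases Nat.eq_zero_or_pos a with rfl | ha
    · rcases Nat.lt_or_eq_of_le hb with h3 | h3
      · obtain ⟨b', rfl⟩ : ∃ b', b = b' + 1 := ⟨b - 1, by omega⟩
        rw [q0, qj b' (by omega)]
        intro e
        have h4 := hle' b' (by omega)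
        rw [← e, hy] at h4
        omega
      · rw [h3, q0, qn]
        exact hne
    · obtain ⟨a', rfl⟩ : ∃ a', a = a' + 1 := ⟨a - 1, by omega⟩
      rcases Nat.lt_or_eq_of_le hb with h3 | h3
      · obtain ⟨b', rfl⟩ : ∃ b', b = b' + 1 := ⟨b - 1, by omega⟩
        rw [qj a' (by omega), qj b' (by omega)]
        exact hp.1 a' b' (by omega) (by omega)
      · rw [h3, qj a' (by omega), qn]
        intro e
        have h4 := hle' a' (by omega)
        rw [e, hy'] at h4
        omega
  · intro a b hab hb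
    rcases Nat.eq_zero_or_pos a with rfl | ha
    · rcases Nat.lt_or_eq_of_le hb with h3 | h3
      · obtain ⟨b', rfl⟩ : ∃ b', b = b' + 1 := ⟨b - 1, by omega⟩
        rw [q0, qj b' (by omega)]
        rcases Nat.eq_zero_or_pos b' with rfl | hb'
        · rw [hp0]
          exact ⟨fun _ => rfl, fun _ => hyx⟩
        · exact ⟨fun hh => absurd hh (hyp b' hb' (by omega)), fun hh => by omega⟩
      · rw [h3, q0, qn]
        exact ⟨fun hh => absurd hh hna, fun hh => by omega⟩
    · obtain ⟨a', rfl⟩ : ∃ a', a = a' + 1 := ⟨a - 1, by omega⟩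
      rcases Nat.lt_or_eq_of_le hb with h3 | h3
      · obtain ⟨b', rfl⟩ : ∃ b', b = b' + 1 := ⟨b - 1, by omega⟩
        rw [qj a' (by omega), qj b' (by omega), hp.2 a' b' (by omega) (by omega)]
        omega
      · rw [h3, qj a' (by omega), qn]
        rcases Nat.lt_or_ge a' n with h4 | h4
        · exact ⟨fun hh => absurd hh (hyp' a' h4), fun hh => by omega⟩
        · have e : a' = n := by omega
          rw [e, hpn]
          exact ⟨fun _ => rfl, fun _ => hyx'.symm⟩
  · intro j h1 h3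
    obtain ⟨j', rfl⟩ : ∃ j', j = j' + 1 := ⟨j - 1, by omega⟩
    rw [qj j' (by omega)]
    have h4 := hle' j' (by omega)
    omega

end Pool.Agent.H92.BF
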