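import Mathlib
import Pool.Agent.H92.TD.Defs
import Pool.Agent.H92.TD.Conn
import Pool.Agent.H92.BF.BDefs
import Pool.Agent.H92.BF.Hole
import Pool.Agent.H92.BF.Lay1
import Pool.Agent.H92.BF.Lay2

/-!
Row BF_Fin.
`bf_all` : induction.  For i ≥ 1:  CompK i, and for i ≥ 2 also Same i and EP i.  i = 1: `bf_comp1`.  i = 2: `bf_same` (from CompK 1), `bf_ep2`, `bf_comp`.  i → i + 1 (i ≥ 2): `bf_same` from CompK i, `bf_ep` from Same i, EP i, then `bf_comp`.
`bf_z2` : Z a stable set of neighbours of v, |Z| largest over all vertices (hmax).  y with y ≠ v, v ≁ y and a neighbour p with v ~ p has a neighbour in Z.  PROOF.  Suppose not.  p ∉ Z (p ~ y).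
 p has a neighbour z in Z: otherwise insert p Z contradicts hmax (for w := v).  p has a nonneighbour z' in Z: otherwise insert y Z (y ∉ Z since v ≁ y) is a stable set of neighbours of p, contradiction to hmax (w := p).
 Bull: p := z', a := v, b := p, q := y, t := z:  z' ~ v, v ~ p, p ~ y, z ~ v, z ~ p; z' ≁ p, z' ≁ y, v ≁ y, z' ≁ z, y ≁ z.
`bf_no` : choose (v, Z) with |Z| largest among all pairs with Z a stable set of neighbours of v (as in the last part of Pool/Agent/H92/TK/Fin.lean; Z = ∅ is allowed as candidate; V is nonempty by `h.bad`).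
 G is preconnected (`connected_of h`); `exists_layer (connected_of h) {v}` gives d with d0, d1, d2.  Lay G v d Z: Z2 from `bf_z2` (d y = 2: `d2` twice gives p with y ~ p, d p = 1, and p ~ v; y ≠ v, v ≁ y by d1).
 Colouring c x := decide (Even (d x)).  `h.bad c`: b and an (m+1)-clique K with c = b on K.  All members of K are in the same layer: for k, k' ∈ K distinct: k ~ k', d k ≤ d k' + 1, d k' ≤ d k + 1 and same parity.
 So all d k = j.  j = 0: K ⊆ {v}, card ≤ 1 < m + 1 (`h.one`).  j = 1: every k ∈ K is adjacent to v (`d2`, `d0`): insert v K is an (m+2)-clique (`clique_insert`), contradiction to `h.free`.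
 j = i + 1, i ≥ 1: CompK i gives x complete to K, the same contradiction.
-/

set_option autoImplicit false
set_option linter.unusedSectionVars false
set_option linter.unusedVariables false

namespace Pool.Agent.H92.BF

open SimpleGraph Finset Pool.Agent.H92.TD

theorem bfin_aux {V : Type} [Fintype V] {G : SimpleGraph V} {v : V} {d : V → ℕ} {Z : Finset V}
    (h : Lay G v d Z) (hb : Bullfree G) (h5 : C5free G) (ho : OddHoleFree G) (i : ℕ) (hi : 1 ≤ i) :
    CompK G d i ∧ (2 ≤ i → Same G d i ∧ EP G d i) := by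
  induction i, hi using Nat.le_induction with
  | base => exact ⟨bf_comp1 h h5, fun h2 => absurd h2 (by omega)⟩
  | succ i hi ih =>
    have hs : Same G d (i + 1) := bf_same h hb hi ih.1
    have he : EP G d (i + 1) := by
      rcases Nat.lt_or_ge 1 i with h2 | h2
      · obtain ⟨hs', he'⟩ := ih.2 h2
        exact bf_ep h hs' he'
      · have h1 : i = 1 := by omega
        subst h1
        exact bf_ep2 h
    exact ⟨bf_comp h ho hs he, fun _ => ⟨hs, he⟩⟩

theorem bf_all {V : Type} [Fintype V] {G : SimpleGraph V} {v : V} {d : V → ℕ} {Z : Finset V}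
    (h : Lay G v d Z) (hb : Bullfree G) (h5 : C5free G) (ho : OddHoleFree G) (i : ℕ) (hi : 1 ≤ i) :
    CompK G d i := by
  exact (bfin_aux h hb h5 ho i hi).1

theorem bf_z2 {V : Type} [Fintype V] {G : SimpleGraph V} (hb : Bullfree G) {v : V} {Z : Finset V}
    (hZ : ∀ z ∈ Z, G.Adj v z) (hZs : ∀ z ∈ Z, ∀ z' ∈ Z, ¬ G.Adj z z')
    (hmax : ∀ (w : V) (Z' : Finset V), (∀ z ∈ Z', G.Adj w z) → (∀ z ∈ Z', ∀ z' ∈ Z', ¬ G.Adj z z') →
      Z'.card ≤ Z.card)
    {y p : V} (hyv : y ≠ v) (hvy : ¬ G.Adj v y) (hvp : G.Adj v p) (hpy : G.Adj p y) :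
    ∃ z ∈ Z, G.Adj z y := by
  classical
  by_contra hc
  push Not at hc
  have hpZ : p ∉ Z := fun hp => hc p hp hpy
  have hyZ : y ∉ Z := fun hy => hvy (hZ y hy)
  have h1 : ∃ z ∈ Z, G.Adj p z := by
    by_contra h1
    push Not at h1
    have h2 := hmax v (insert p Z) (fun z hz => by
      rcases Finset.mem_insert.1 hz with rfl | hz
      · exact hvp
      · exact hZ z hz) (fun z hz z' hz' => by
      rcases Finset.mem_insert.1 hz with hz1 | hz1
      · rcases Finset.mem_insert.1 hz' with hz2 | hz2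
        · rw [hz1, hz2]
          exact G.loopless.irrefl _
        · rw [hz1]
          exact h1 z' hz2
      · rcases Finset.mem_insert.1 hz' with hz2 | hz2
        · rw [hz2]
          exact fun e => h1 z hz1 e.symm
        · exact hZs z hz1 z' hz2)
    rw [Finset.card_insert_of_notMem hpZ] at h2
    omega
  have h3 : ∃ z ∈ Z, ¬ G.Adj p z := by
    by_contra h3
    push Not at h3
    have h2 := hmax p (insert y Z) (fun z hz => by
      rcases Finset.mem_insert.1 hz with rfl | hz
      · exact hpy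
      · exact h3 z hz) (fun z hz z' hz' => by
      rcases Finset.mem_insert.1 hz with hz1 | hz1
      · rcases Finset.mem_insert.1 hz' with hz2 | hz2
        · rw [hz1, hz2]
          exact G.loopless.irrefl _
        · rw [hz1]
          exact fun e => hc z' hz2 e.symm
      · rcases Finset.mem_insert.1 hz' with hz2 | hz2
        · rw [hz2]
          exact hc z hz1
        · exact hZs z hz1 z' hz2)
    rw [Finset.card_insert_of_notMem hyZ] at h2
    omega
  obtain ⟨z, hz, hpz⟩ := h1
  obtain ⟨z', hz', hpz'⟩ := h3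
  exact hb z' v p y z (hZ z' hz').symm hvp hpy (hZ z hz).symm hpz.symm (fun e => hpz' e.symm)
    (hc z' hz') hvy (hZs z' hz' z hz) (fun e => hc z hz e.symm)

theorem bf_no {V : Type} [Fintype V] {G : SimpleGraph V} {m : ℕ} (h : MinCE G m) (hb : Bullfree G)
    (ho : OddHoleFree G) : False := by
  classical
  have hone := h.one
  obtain ⟨b0, K0, hK0, -⟩ := h.bad (fun _ => true)
  obtain ⟨v0, -⟩ : K0.Nonempty := by
    rw [← Finset.card_pos, hK0.2]
    omega
  obtain ⟨P, hP⟩ : ∃ P : Finset (V × Finset V), P = univ.filter (fun p : V × Finset V =>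
      (∀ z ∈ p.2, G.Adj p.1 z) ∧ ∀ z ∈ p.2, ∀ z' ∈ p.2, ¬ G.Adj z z') := ⟨_, rfl⟩
  have hmem : ∀ (w : V) (Z : Finset V), (w, Z) ∈ P ↔
      (∀ z ∈ Z, G.Adj w z) ∧ ∀ z ∈ Z, ∀ z' ∈ Z, ¬ G.Adj z z' := by
    intro w Z
    rw [hP, mem_filter]
    exact ⟨fun h => h.2, fun h => ⟨mem_univ _, h⟩⟩
  have h0 : (v0, (∅ : Finset V)) ∈ P := by
    rw [hmem]
    exact ⟨fun z hz => absurd hz (Finset.notMem_empty z), fun z hz => absurd hz (Finset.notMem_empty z)⟩
  obtain ⟨⟨v, Z⟩, hvZ, hmax0⟩ := Finset.exists_max_image P (fun p => p.2.card) ⟨_, h0⟩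
  obtain ⟨hZ, hZs⟩ := (hmem v Z).1 hvZ
  have hmax : ∀ (w : V) (Z' : Finset V), (∀ z ∈ Z', G.Adj w z) → (∀ z ∈ Z', ∀ z' ∈ Z', ¬ G.Adj z z') →
      Z'.card ≤ Z.card := fun w Z' h1 h2 => hmax0 (w, Z') ((hmem w Z').2 ⟨h1, h2⟩)
  obtain ⟨d, d0', d1, d2⟩ := exists_layer (connected_of h) {v} (Finset.singleton_nonempty v)
  have d0 : ∀ y, d y = 0 ↔ y = v := fun y => by rw [d0', Finset.mem_singleton]
  have dv : d v = 0 := (d0 v).2 rfl
  have hnb : ∀ y, d y = 1 → G.Adj y v := by
    intro y hy
    obtain ⟨x, hx, hxd⟩ := d2 y (by omega)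
    have hx0 : x = v := (d0 x).1 (by omega)
    rw [← hx0]
    exact hx
  have hZ2 : ∀ y, d y = 2 → ∃ z ∈ Z, G.Adj z y := by
    intro y hy
    obtain ⟨p, hp, hpd⟩ := d2 y (by omega)
    refine bf_z2 hb hZ hZs hmax (y := y) (p := p) ?_ ?_ (hnb p (by omega)).symm hp.symm
    · intro e
      rw [e, dv] at hy
      omega
    · intro e
      have := d1 y v e.symm
      omega
  have hL : Lay G v d Z := ⟨d0, d1, d2, hZ, hZs, hZ2⟩
  obtain ⟨b, K, hK, hbK⟩ := h.bad (fun x => decide (Even (d x)))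
  obtain ⟨k0, hk0⟩ : K.Nonempty := by
    rw [← Finset.card_pos, hK.2]
    omega
  have hall : ∀ k ∈ K, d k = d k0 := by
    intro k hk
    by_cases hkk : k = k0
    · rw [hkk]
    · have had : G.Adj k k0 := hK.1 hk hk0 hkk
      have e1 := d1 k k0 had
      have e2 := d1 k0 k had.symm
      have e3 : decide (Even (d k)) = decide (Even (d k0)) := (hbK k hk).trans (hbK k0 hk0).symm
      have e4 : Even (d k) ↔ Even (d k0) := by simpa using e3
      rw [Nat.even_iff, Nat.even_iff] at e4
      omega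
  have hno : ∀ x, ¬ ∀ k ∈ K, G.Adj x k := fun x hx => h.free _ (clique_insert hK hx)
  rcases Nat.lt_or_ge (d k0) 2 with hj | hj
  · rcases Nat.lt_or_ge (d k0) 1 with hj0 | hj1
    · have hsub : K ⊆ {v} := by
        intro k hk
        rw [Finset.mem_singleton]
        exact (d0 k).1 (by rw [hall k hk]; omega)
      have h5 := Finset.card_le_card hsub
      rw [hK.2, Finset.card_singleton] at h5
      omega
    · exact hno v (fun k hk => (hnb k (by rw [hall k hk]; omega)).symm)
  · obtain ⟨x, -, hx⟩ := bf_all hL hb h.c5 ho (d k0 - 1) (by omega) K ⟨k0, hk0⟩ hK.1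
      (fun k hk => by rw [hall k hk]; omega)
    exact hno x hx

end Pool.Agent.H92.BF
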