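import Mathlib
import Pool.Agent.H92.TF.FAsm
import Pool.Agent.H92.BF.BFin

/-!
MP_5aa732_co: assembly of the theorem on bull-free odd-hole-free graphs.
-/

set_option autoImplicit false
set_option linter.unusedSectionVars false
set_option linter.unusedVariables false

namespace Pool.Agent.H92.BF

open SimpleGraph Finset Pool.Agent.H92.TD Pool.Agent.H92.TF

variable {V : Type} [Fintype V] {G : SimpleGraph V} {m : ℕ}

theorem Bullfree_of
    (h : IsEmpty (SimpleGraph.fromEdgeSet
      ({s(0, 1), s(1, 2), s(2, 3), s(1, 4), s(2, 4)} : Set (Sym2 (Fin 5))) ↪g G)) :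
    Bullfree G := by
  intro p a b q t hpa hab hbq hta htb npb npq naq npt nqt
  have e1 : p ≠ a := G.ne_of_adj hpa
  have e2 : a ≠ b := G.ne_of_adj hab
  have e3 : b ≠ q := G.ne_of_adj hbq
  have e4 : t ≠ a := G.ne_of_adj hta
  have e5 : t ≠ b := G.ne_of_adj htb
  have e6 : p ≠ b := fun h => npq (by rw [h]; exact hbq)
  have e7 : p ≠ q := fun h => npb (by rw [h]; exact hbq.symm)
  have e8 : a ≠ q := fun h => npq (by rw [← h]; exact hpa)
  have e9 : p ≠ t := fun h => npb (by rw [h]; exact htb)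
  have e10 : q ≠ t := fun h => naq (by rw [h]; exact hta.symm)
  have hf : Function.Injective (![p, a, b, q, t] : Fin 5 → V) := by
    intro i j hij
    fin_cases i <;> fin_cases j <;> simp_all
  refine h.false ⟨⟨(![p, a, b, q, t] : Fin 5 → V), hf⟩, ?_⟩
  intro i j
  have nbp : ¬ G.Adj b p := fun h => npb h.symm
  have nqp : ¬ G.Adj q p := fun h => npq h.symm
  have nqa : ¬ G.Adj q a := fun h => naq h.symm
  have ntp : ¬ G.Adj t p := fun h => npt h.symm
  have ntq : ¬ G.Adj t q := fun h => nqt h.symm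
  have hap := hpa.symm
  have hba := hab.symm
  have hqb := hbq.symm
  have hat := hta.symm
  have hbt := htb.symm
  fin_cases i <;> fin_cases j <;>
    simp [SimpleGraph.fromEdgeSet_adj, hpa, hab, hbq, hta, htb, npb, npq, naq, npt, nqt, nbp, nqp, nqa, ntp,
      ntq, hap, hba, hqb, hat, hbt]

theorem bullfree_induce {V : Type} {G : SimpleGraph V} (s : Set V) (hk : Bullfree G) :
    Bullfree (G.induce s) := by
  intro p a b q t hpa hab hbq hta htb npb npq naq npt nqt
  exact hk p a b q t hpa hab hbq hta htb npb npq naq npt nqt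

theorem core_bull (m : ℕ) (hm : 1 ≤ m) (V : Type) [Fintype V] (G : SimpleGraph V)
    (hf : G.CliqueFree (m + 2)) (ho : OddHoleFree G) (hk : Bullfree G) :
    ∃ c : V → Bool, ∀ K : Finset V, G.IsNClique (m + 1) K → ∀ b : Bool, ¬ ∀ x ∈ K, c x = b := by
  refine core_gen2 (fun V G => Bullfree G ∧ OddHoleFree G) ?_ ?_ ?_ m hm V G hf ⟨hk, ho⟩
  · intro V G s hP
    exact ⟨bullfree_induce s hP.1, oddHoleFree_induce' s hP.2⟩
  · intro V _ G m hP hM hs
    exact (bf_no hM hP.1 hP.2).elim
  · intro V _ G hP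
    exact hP.2

theorem basm_back [DecidableEq V] (ho : OddHoleFree G) (hk : Bullfree G) (S : Finset V)
    (hS : ∃ u ∈ S, ∃ v ∈ S, G.Adj u v) :
    ∃ A : Finset V, A ⊆ S ∧
      (∀ T : Finset V, T ⊆ A → G.IsClique (T : Set V) →
          ∃ T' : Finset V, T' ⊆ S ∧ G.IsClique (T' : Set V) ∧ T.card < T'.card) ∧
      (∀ T : Finset V, T ⊆ S \ A → G.IsClique (T : Set V) →
          ∃ T' : Finset V, T' ⊆ S ∧ G.IsClique (T' : Set V) ∧ T.card < T'.card) := by
  refine asm_back_gen (fun _ _ => True) S ?_ hS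
  intro m hm hf _
  exact core_bull m hm _ _ hf (oddHoleFree_induce _ ho) (bullfree_induce _ hk)

end Pool.Agent.H92.BF
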